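import Pool.Agent.H.MP_d695ac_nt.A

namespace Pool.Agent.Results.MP_d695ac_nt.Mersenne
open Pool.Agent.H.MP_24a6f7_nt Pool.Agent.H.MP_d695ac_nt

theorem result :
    ({n | TwoNear n ∧ ∃ k p m : ℕ, p.Prime ∧ 3 ≤ m ∧ n = 2 ^ k * p ^ m} \ Mers).Finite ∧
    ({n | TwoNear n ∧ ∃ k p m : ℕ, p.Prime ∧ 3 ≤ m ∧ n = 2 ^ k * p ^ m}.Finite ↔
      {j : ℕ | (2 ^ j - 1).Prime}.Finite) := by
  have h : ({n | TwoNear n ∧ ∃ k p m : ℕ, p.Prime ∧ 3 ≤ m ∧ n = 2 ^ k * p ^ m} \ Mers).Finite := by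
    have h0 := (Set.finite_lt_nat 23).biUnion
      (t := fun p => {n | p.Prime ∧ Odd p ∧ TwoNear n ∧ ∃ k m : ℕ, 1 ≤ m ∧ n = 2 ^ k * p ^ m})
      (fun p _ => by
        by_cases hp : p.Prime ∧ Odd p
        · exact (fin_p p hp.1 hp.2).subset fun n hn => hn.2.2
        · exact Set.finite_empty.subset fun n hn => hp ⟨hn.1, hn.2.1⟩)
    refine h0.subset ?_
    rintro n ⟨⟨h, k, p, m, hp, hm, rfl⟩, hn⟩
    rcases hp.eq_two_or_odd' with rfl | ho
    · rw [← pow_add] at h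
      exact absurd h (not_pp 2 _ Nat.prime_two)
    rcases Nat.eq_zero_or_pos k with rfl | hk
    · rw [pow_zero, one_mul] at h
      exact absurd h (not_pp p _ hp)
    by_cases h23 : p < 23
    · exact Set.mem_biUnion (x := p) h23 ⟨hp, ho, h, k, m, by omega, rfl⟩
    · obtain ⟨j, rfl⟩ : ∃ j, m = j + 3 := ⟨m - 3, by omega⟩
      obtain ⟨rfl, rfl⟩ := large k p j hk hp ho (by omega) h
      exact absurd ⟨k, hk, hp, rfl⟩ hn
  refine ⟨h, ?_⟩
  rw [← mers_fin]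
  constructor
  · intro h'
    refine h'.subset fun x hx => ?_
    obtain ⟨h1, k, p, -, hp, -, h2⟩ := mers_sub hx
    exact ⟨h1, k, p, 3, hp, le_rfl, h2⟩
  · intro h'
    exact (h'.union h).subset fun x hx => by
      by_cases hx' : x ∈ Mers
      · exact Or.inl hx'
      · exact Or.inr ⟨hx, hx'⟩

end Pool.Agent.Results.MP_d695ac_nt.Mersenne
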